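import Pool.Agent.MBX.Stmts

/-!
# MBX, row FIN: the theorem from REP, LOW and UPP
-/

set_option autoImplicit false

open MeasureTheory ProbabilityTheory

namespace Pool.Agent.MBX.H95

open Pool.Agent.Helper49_Pauli
open Pool.Agent.Loc (γn PB)

theorem normSq_nonneg' {D : Type} [NormedAddCommGroup D] [InnerProductSpace ℂ D]
    (psi : X3 → Fin 2 → D) : 0 ≤ normSq psi := by
  unfold Helper49_Pauli.normSq
  exact integral_nonneg fun x => Finset.sum_nonneg fun s _ => by positivity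

theorem fin (hREP : RepStmt) (hLOW : LowStmt) (hUPP : UppStmt) : FinStmt := by
  intro alpha ha
  obtain ⟨c, p₁, hc, hlow⟩ := hLOW alpha ha
  obtain ⟨C, p₂, hC, hupp⟩ := hUPP alpha ha
  refine ⟨c, C, max p₁ p₂, hc, hC, ?_⟩
  intro cut L hcut hL hLc P D _ _ F hF
  have hl : 1 ≤ L * cut := by
    have h := Real.pi_gt_three
    linarith
  have hl0 : 0 < L * cut := by linarith
  have hk : 0 ≤ cut ^ ((4 / 3 : ℝ)) := Real.rpow_nonneg (by linarith) _
  obtain ⟨hne, hup⟩ := hupp cut L hcut hL hLc P D F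
  constructor
  · have h0 : c / (L * cut) ^ (max p₁ p₂) ≤ c / (L * cut) ^ p₁ :=
      div_le_div_of_nonneg_left hc.le (pow_pos hl0 _) (pow_le_pow_right₀ hl (le_max_left _ _))
    have h1 := mul_le_mul_of_nonneg_right h0 hk
    refine h1.trans ?_
    unfold selfEnergy
    refine le_csInf ?_ ?_
    · obtain ⟨psi, h2, h3⟩ := hne
      exact ⟨_, psi, h2, h3, rfl⟩
    · rintro E ⟨psi, hs, hn, rfl⟩
      obtain ⟨Psi, hW, hnorm, hen⟩ := hREP cut L alpha hL ha.le P D F hF psi hs
      have hpos : 0 < normSq psi := lt_of_le_of_ne (normSq_nonneg' psi) (Ne.symm hn)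
      rw [le_div_iff₀ hpos, hen, hnorm]
      exact hlow cut L P hcut hL hLc Psi hW
  · refine hup.trans ?_
    have h0 : C * (L * cut) ^ p₂ ≤ C * (L * cut) ^ (max p₁ p₂) :=
      mul_le_mul_of_nonneg_left (pow_le_pow_right₀ hl (le_max_right _ _)) hC.le
    exact mul_le_mul_of_nonneg_right h0 hk

end Pool.Agent.MBX.H95
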